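import Pool.Agent.H88.RHI.Ext
import Pool.Agent.H85.Rho.G2

/-!
# Gluing admissible sets: the asymptotic form
-/

set_option autoImplicit false

open Finset Real Filter Topology
open Pool.Agent.H85.Rho hiding PP MM TT

namespace RHI88

theorem card_pr_le (n : ℕ) : ∀ w : ℕ, (pr w n).card ≤ Nat.primeCounting n := by
  intro w
  have h1 : (pr 0 n).card = Nat.primeCounting n := by
    have := card_pr_eq (Nat.zero_le n)
    simpa using this
  rw [← h1]
  apply card_le_card
  intro p hp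
  rw [mem_pr] at hp ⊢
  exact ⟨⟨by omega, hp.1.2⟩, hp.2⟩

/-- `∑ 1 / p²` over the primes above `w`, from `π(n) ≤ ε n` for `n ≥ w` -/
theorem sum_sq {ε : ℝ} (hε : 0 ≤ ε) {w : ℕ} (hw : 1 ≤ w)
    (h : ∀ n : ℕ, w ≤ n → (Nat.primeCounting n : ℝ) ≤ ε * n) (z : ℕ) (hz : w ≤ z) :
    ∑ p ∈ pr w z, (1 / (p : ℝ)) * (1 / p) ≤
      2 * ε * (1 / w - 1 / z) + (Nat.primeCounting z : ℝ) / z ^ 2 := by
  classical
  induction z, hz using Nat.le_induction with
  | base =>
    have h1 : pr w w = ∅ := by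
      ext p
      simp [mem_pr]
    rw [h1, sum_empty, sub_self, mul_zero, zero_add]
    positivity
  | succ z hz ih =>
    have hz0 : (0 : ℝ) < z := by
      have : 0 < z := by omega
      exact_mod_cast this
    have hpi := h z hz
    have h2 : (Nat.primeCounting z : ℝ) / z ^ 2 - (Nat.primeCounting z : ℝ) / (z + 1) ^ 2 ≤
        2 * ε * (1 / z - 1 / (z + 1)) := by
      have e1 : (Nat.primeCounting z : ℝ) / z ^ 2 - (Nat.primeCounting z : ℝ) / (z + 1) ^ 2 =
          Nat.primeCounting z * (2 * z + 1) / (z ^ 2 * (z + 1) ^ 2) := by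
        field_simp
        ring
      have e2 : 2 * ε * (1 / z - 1 / ((z : ℝ) + 1)) = (ε * z) * (2 * z + 2) /
          (z ^ 2 * (z + 1) ^ 2) := by
        field_simp
        ring
      rw [e1, e2]
      apply div_le_div_of_nonneg_right _ (by positivity)
      have : 0 ≤ ε * z := by positivity
      nlinarith
    by_cases hp : (z + 1).Prime
    · have h3 : pr w (z + 1) = insert (z + 1) (pr w z) := by
        ext p
        simp only [mem_pr, mem_insert]
        constructor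
        · rintro ⟨⟨h4, h5⟩, h6⟩
          by_cases h7 : p = z + 1
          · exact Or.inl h7
          · exact Or.inr ⟨⟨h4, by omega⟩, h6⟩
        · rintro (rfl | ⟨⟨h4, h5⟩, h6⟩)
          · exact ⟨⟨by omega, le_rfl⟩, hp⟩
          · exact ⟨⟨h4, by omega⟩, h6⟩
      have h4 : (z + 1) ∉ pr w z := by
        rw [mem_pr]
        omega
      have h5 : Nat.primeCounting (z + 1) = Nat.primeCounting z + 1 := by
        have h6 := card_pr_eq (Nat.zero_le (z + 1))
        have h7 := card_pr_eq (Nat.zero_le z)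
        have h8 : pr 0 (z + 1) = insert (z + 1) (pr 0 z) := by
          ext p
          simp only [mem_pr, mem_insert]
          constructor
          · rintro ⟨⟨h4, h5⟩, h6⟩
            by_cases h7 : p = z + 1
            · exact Or.inl h7
            · exact Or.inr ⟨⟨h4, by omega⟩, h6⟩
          · rintro (rfl | ⟨⟨h4, h5⟩, h6⟩)
            · exact ⟨⟨by omega, le_rfl⟩, hp⟩
            · exact ⟨⟨h4, by omega⟩, h6⟩
        have h9 : (z + 1) ∉ pr 0 z := by
          rw [mem_pr]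
          omega
        rw [h8, card_insert_of_notMem h9] at h6
        omega
      rw [h3, sum_insert h4, h5]
      push_cast
      have h6 : (1 / ((z : ℝ) + 1)) * (1 / (z + 1)) = 1 / (z + 1) ^ 2 := by
        field_simp
      rw [h6, add_div]
      have h7 : 2 * ε * (1 / (w : ℝ) - 1 / (z + 1)) = 2 * ε * (1 / w - 1 / z) +
          2 * ε * (1 / z - 1 / (z + 1)) := by ring
      rw [h7]
      linarith
    · have h3 : pr w (z + 1) = pr w z := by
        ext p
        simp only [mem_pr]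
        constructor
        · rintro ⟨⟨h4, h5⟩, h6⟩
          refine ⟨⟨h4, ?_⟩, h6⟩
          by_contra h7
          have : p = z + 1 := by omega
          exact hp (this ▸ h6)
        · rintro ⟨⟨h4, h5⟩, h6⟩
          exact ⟨⟨h4, by omega⟩, h6⟩
      have h5 : (Nat.primeCounting z : ℝ) ≤ Nat.primeCounting (z + 1) := by
        exact_mod_cast Nat.monotone_primeCounting (Nat.le_succ z)
      rw [h3]
      push_cast
      have h6 : (Nat.primeCounting z : ℝ) / (z + 1) ^ 2 ≤ Nat.primeCounting (z + 1) / (z + 1) ^ 2 :=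
        div_le_div_of_nonneg_right h5 (by positivity)
      have h7 : 2 * ε * (1 / (w : ℝ) - 1 / (z + 1)) = 2 * ε * (1 / w - 1 / z) +
          2 * ε * (1 / z - 1 / (z + 1)) := by ring
      rw [h7]
      linarith

theorem sum_sq' {ε : ℝ} (hε : 0 ≤ ε) {w : ℕ} (hw : 1 ≤ w)
    (h : ∀ n : ℕ, w ≤ n → (Nat.primeCounting n : ℝ) ≤ ε * n) (z : ℕ) :
    ∑ p ∈ pr w z, (1 / (p : ℝ)) * (1 / p) ≤ 3 * ε / w := by
  have hw0 : (0 : ℝ) < w := by exact_mod_cast hw
  rcases le_or_gt w z with hz | hz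
  · refine (sum_sq hε hw h z hz).trans ?_
    have hz0 : (0 : ℝ) < z := by
      have : 0 < z := by omega
      exact_mod_cast this
    have hwz : (w : ℝ) ≤ z := by exact_mod_cast hz
    have h1 : (Nat.primeCounting z : ℝ) / z ^ 2 ≤ ε / z := by
      rw [div_le_div_iff₀ (by positivity) hz0]
      have := h z hz
      nlinarith [mul_le_mul_of_nonneg_right this hz0.le]
    have h2 : ε / z ≤ ε / w := div_le_div_of_nonneg_left hε hw0 hwz
    have h3 : 0 ≤ 2 * ε * (1 / (z : ℝ)) := by positivity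
    have h4 : 3 * ε / w = 2 * ε * (1 / w) + ε / w := by ring
    rw [h4]
    linarith
  · have h1 : pr w z = ∅ := by
      ext p
      simp [mem_pr]
      omega
    rw [h1, sum_empty]
    positivity

theorem ev_pi {ε : ℝ} (hε : 0 < ε) : ∀ᶠ w : ℕ in atTop, ∀ n : ℕ, w ≤ n →
    (Nat.primeCounting n : ℝ) ≤ ε * n := by
  have h : ∀ᶠ n : ℕ in atTop, (Nat.primeCounting n : ℝ) ≤ ε * n := by
    filter_upwards [pi_facts, tendsto_logN.eventually_ge_atTop (4 / ε),
      eventually_ge_atTop 1] with n h1 h2 h3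
    refine h1.1.trans ?_
    have h4 : 0 < 4 / ε := by positivity
    have h5 : 0 < Real.log n := by linarith
    have hn : (0 : ℝ) < n := by exact_mod_cast h3
    rw [mul_div_assoc', div_le_iff₀ h5]
    rw [div_le_iff₀ hε] at h2
    nlinarith
  obtain ⟨N, hN⟩ := eventually_atTop.1 h
  exact eventually_atTop.2 ⟨N, fun w hw n hn => hN n (hw.trans hn)⟩

theorem sum_inv (w z : ℕ) : ∑ p ∈ pr w z, (1 / (p : ℝ)) ≤ 1 + Real.log z := by
  have h1 : ∑ p ∈ pr w z, (1 / (p : ℝ)) ≤ ∑ n ∈ Icc 1 z, (1 / (n : ℝ)) := by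
    apply sum_le_sum_of_subset_of_nonneg
    · intro p hp
      rw [mem_pr] at hp
      rw [mem_Icc]
      omega
    · intro n _ _
      positivity
  refine h1.trans ?_
  have h2 := harmonic_le_one_add_log z
  rw [harmonic_eq_sum_Icc] at h2
  push_cast at h2
  simpa only [one_div] using h2

/-- **Gluing, asymptotic form.** -/
theorem glue_ev {B : Finset ℕ} {r : ℕ → ℕ}
    (hB : ∀ p : ℕ, p.Prime → ∀ b ∈ B, ¬ b ≡ r p [MOD p]) (P : ℕ) : ∀ᶠ y : ℕ in atTop,
    ∀ C : Finset ℕ, C ⊆ Icc 1 y → Adm C → Real.sqrt y / 2 ≤ C.card →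
      ∃ (B' : Finset ℕ) (r' : ℕ → ℕ), B ⊆ B' ∧ (∀ b ∈ B', b = 0 → b ∈ B) ∧
        (∀ p : ℕ, p.Prime → ∀ b ∈ B', ¬ b ≡ r' p [MOD p]) ∧ (∀ p : ℕ, p ≤ P → r' p = r p) ∧
        (1 - 1 / Real.log y) * (C.card : ℝ) ≤ ((B'.filter (fun n => n ∈ Icc 1 y)).card : ℝ) := by
  classical
  set K : ℝ := (B.card : ℝ) + 1 with hK
  have hK0 : 0 < K := by positivity
  set ε : ℝ := 1 / (384 * K) with hε
  have hε0 : 0 < ε := by positivity
  have hfl : Tendsto (fun y : ℕ => ⌊Real.log (y : ℝ) / 8⌋₊) atTop atTop :=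
    tendsto_nat_floor_atTop.comp (tendsto_logN.atTop_div_const (by norm_num))
  filter_upwards [hfl.eventually (ev_pi hε0), hfl.eventually_ge_atTop (2 * B.card + P + 1),
    tendsto_logN.eventually_ge_atTop 16, ev_pow 1 0.075 (by norm_num) 8,
    ev_pow 2 0.25 (by norm_num) (64 * K), eventually_ge_atTop (B.sup id + 2)]
    with y hpi hw hl h1 h2 hy C hC hCa hCc
  set w : ℕ := ⌊Real.log (y : ℝ) / 8⌋₊ with hwd
  set ℓ : ℝ := Real.log (y : ℝ) with hℓ
  have hy0 : (0 : ℝ) < y := by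
    have : 0 < y := by omega
    exact_mod_cast this
  have hl0 : 0 < ℓ := by linarith
  have hex : ∀ a : ℝ, Real.exp (a * ℓ) = (y : ℝ) ^ a := fun a => by
    rw [Real.rpow_def_of_pos hy0, mul_comm]
  rw [hex] at h1 h2
  set T : ℕ := ⌊(y : ℝ) ^ (0.25 : ℝ)⌋₊ with hTd
  have hyT : (1 : ℝ) ≤ (y : ℝ) ^ (0.25 : ℝ) := by
    refine le_trans ?_ h2
    nlinarith
  have hT1 : 0 < T := Nat.floor_pos.2 hyT
  have hT2 : (T : ℝ) ≤ (y : ℝ) ^ (0.25 : ℝ) := Nat.floor_le (by positivity)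
  have hT3 : (y : ℝ) ^ (0.25 : ℝ) / 2 ≤ T := by
    have := Nat.lt_floor_add_one ((y : ℝ) ^ (0.25 : ℝ))
    have h5 : (1 : ℝ) ≤ T := by exact_mod_cast hT1
    rw [← hTd] at this
    linarith
  have hT0 : (0 : ℝ) < T := by exact_mod_cast hT1
  have hw1 : (w : ℝ) ≤ ℓ / 8 := Nat.floor_le (by positivity)
  have hw2 : ℓ / 16 ≤ w := by
    have := Nat.lt_floor_add_one (ℓ / 8)
    rw [← hwd] at this
    linarith
  have hw0 : (0 : ℝ) < w := by linarith
  -- the shift is small
  have hWT : ((∏ l ∈ pr 0 w, l : ℕ) : ℝ) * T ≤ (C.card : ℝ) / (4 * ℓ) := by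
    have h3 := prod_pr_le 0 w
    have h4 : Real.exp ((w : ℝ) * 1.4) ≤ (y : ℝ) ^ (0.175 : ℝ) := by
      rw [Real.rpow_def_of_pos hy0]
      apply Real.exp_le_exp.2
      rw [← hℓ]
      linarith
    have h5 : ((∏ l ∈ pr 0 w, l : ℕ) : ℝ) * T ≤ (y : ℝ) ^ (0.175 : ℝ) * (y : ℝ) ^ (0.25 : ℝ) :=
      mul_le_mul (h3.trans h4) hT2 hT0.le (by positivity)
    rw [← Real.rpow_add hy0] at h5
    refine h5.trans ?_
    rw [le_div_iff₀ (by positivity)]
    have h6 : (y : ℝ) ^ ((0.175 : ℝ) + 0.25) * (8 * ℓ ^ 1) ≤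
        (y : ℝ) ^ ((0.175 : ℝ) + 0.25) * (y : ℝ) ^ (0.075 : ℝ) :=
      mul_le_mul_of_nonneg_left h1 (by positivity)
    rw [← Real.rpow_add hy0] at h6
    have h7 : (y : ℝ) ^ ((0.175 : ℝ) + 0.25 + 0.075) = Real.sqrt y := by
      rw [Real.sqrt_eq_rpow]
      norm_num
    rw [h7] at h6
    linarith
  -- the average
  have hQ : (B.card : ℝ) * ∑ p ∈ pr w (y + 1), (1 / (p : ℝ)) * (1 / p + 1 / T) ≤
      1 / (4 * ℓ) := by
    have h3 : ∑ p ∈ pr w (y + 1), (1 / (p : ℝ)) * (1 / p + 1 / T) =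
        ∑ p ∈ pr w (y + 1), (1 / (p : ℝ)) * (1 / p) +
          (1 / T) * ∑ p ∈ pr w (y + 1), (1 / (p : ℝ)) := by
      rw [mul_sum, ← sum_add_distrib]
      apply sum_congr rfl
      intro p _
      ring
    rw [h3]
    have h4 := sum_sq' hε0.le (by omega : 1 ≤ w) hpi (y + 1)
    have h5 := sum_inv w (y + 1)
    have h6 : Real.log ((y + 1 : ℕ) : ℝ) ≤ ℓ + 1 := by
      have h7 : ((y + 1 : ℕ) : ℝ) ≤ Real.exp 1 * y := by
        have := Real.add_one_le_exp (1 : ℝ)
        have h8 : (1 : ℝ) ≤ y := by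
          have : 1 ≤ y := by omega
          exact_mod_cast this
        push_cast
        nlinarith
      have h8 := Real.log_le_log (by positivity) h7
      rw [Real.log_mul (Real.exp_pos _).ne' hy0.ne', Real.log_exp] at h8
      linarith
    have h7 : 3 * ε / w ≤ 48 * ε / ℓ := by
      rw [div_le_div_iff₀ hw0 hl0]
      nlinarith
    have h8 : (1 / (T : ℝ)) * ∑ p ∈ pr w (y + 1), (1 / (p : ℝ)) ≤ 4 * ℓ / (y : ℝ) ^ (0.25 : ℝ) := by
      have h9 : (1 / (T : ℝ)) ≤ 2 / (y : ℝ) ^ (0.25 : ℝ) := by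
        rw [div_le_div_iff₀ hT0 (by positivity)]
        linarith
      calc _ ≤ (2 / (y : ℝ) ^ (0.25 : ℝ)) * (2 * ℓ) := by
            apply mul_le_mul h9 (by linarith) (by positivity) (by positivity)
        _ = _ := by ring
    have h9 : 4 * ℓ / (y : ℝ) ^ (0.25 : ℝ) ≤ 1 / (16 * K * ℓ) := by
      rw [div_le_div_iff₀ (by positivity) (by positivity)]
      calc 4 * ℓ * (16 * K * ℓ) = 64 * K * ℓ ^ 2 := by ring
        _ ≤ 1 * (y : ℝ) ^ (0.25 : ℝ) := by linarith
    have h10 : 48 * ε / ℓ = 1 / (8 * K * ℓ) := by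
      rw [hε]
      field_simp
      norm_num
    have h11 : ∑ p ∈ pr w (y + 1), (1 / (p : ℝ)) * (1 / p) +
          (1 / T) * ∑ p ∈ pr w (y + 1), (1 / (p : ℝ)) ≤ 1 / (8 * K * ℓ) + 1 / (16 * K * ℓ) := by
      linarith
    have h12 : (B.card : ℝ) ≤ K := by rw [hK]; linarith
    calc _ ≤ K * (1 / (8 * K * ℓ) + 1 / (16 * K * ℓ)) := by
          apply mul_le_mul h12 h11 _ hK0.le
          positivity
      _ = 3 / (16 * ℓ) := by
          field_simp
          norm_num
      _ ≤ _ := by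
          rw [div_le_div_iff₀ (by positivity) (by positivity)]
          nlinarith
  have hl1 : 1 / (4 * ℓ) ≤ 1 / 64 := by
    apply div_le_div_of_nonneg_left (by norm_num) (by norm_num) (by linarith)
  choose e he using hCa
  obtain ⟨B', r', h3, h4, h5, h6, h7⟩ := glue (B := B) (C := C) (r := r)
    (e := fun p => if h : p.Prime then e p h else 0) (y := y) (w := w) (T := T)
    (fun b hb => by
      have := le_sup (f := id) hb
      simp only [id] at this
      omega) hB (by omega) hC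
    (fun p hp n hn => by
      simp only [dif_pos hp]
      exact he p hp n hn) hT1 (by linarith)
  refine ⟨B', r', h3, h4, h5, fun p hp => h6 p (by omega), le_trans ?_ h7⟩
  set Q := (B.card : ℝ) * ∑ p ∈ pr w (y + 1), (1 / (p : ℝ)) * (1 / p + 1 / T) with hQd
  have hC0 : (0 : ℝ) ≤ C.card := Nat.cast_nonneg _
  have h8 : (C.card : ℝ) / (4 * ℓ) = C.card * (1 / (4 * ℓ)) := by ring
  rw [h8] at hWT
  set u := 1 / (4 * ℓ) with hu
  have h9 : 1 / ℓ = 4 * u := by
    rw [hu]
    field_simp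
  have hu0 : 0 ≤ u := by rw [hu]; positivity
  rw [h9]
  calc (1 - 4 * u) * (C.card : ℝ) ≤ (1 - 2 * u) * (C.card * (1 - u)) := by
        nlinarith [mul_nonneg hu0 hC0, mul_nonneg (mul_nonneg hu0 hu0) hC0]
    _ ≤ (1 - 2 * Q) * (C.card * (1 - u)) := by
        apply mul_le_mul_of_nonneg_right (by linarith)
        apply mul_nonneg hC0
        linarith
    _ ≤ _ := by
        apply mul_le_mul_of_nonneg_left _ (by linarith)
        linarith

end RHI88
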