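import Pool.Agent.H85.Rho.Fin

/-!
# Gluing admissible sets

`B` a finite set missing the class `r p` modulo every prime `p`, `C ⊆ [1, y]` missing the class
`e p` modulo every prime `p`.  Some translate of `C` misses the classes `r p` for `p ≤ w`, and
after the removal of few elements its union with `B` is admissible.
-/

set_option autoImplicit false

open Finset Real
open Pool.Agent.H85.Rho hiding PP MM TT

namespace RHI88

/-- a shift with prescribed classes modulo the primes up to `w` -/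
theorem crt (e r : ℕ → ℕ) (w : ℕ) : ∃ c0 : ℕ, c0 < ∏ l ∈ pr 0 w, l ∧
    ∀ p : ℕ, p.Prime → p ≤ w → e p + c0 ≡ r p [MOD p] := by
  have hs : ∀ i ∈ pr 0 w, (fun l : ℕ => l) i ≠ 0 := fun i hi => (mem_pr.1 hi).2.ne_zero
  have pp : Set.Pairwise (↑(pr 0 w) : Set ℕ) (Function.onFun Nat.Coprime (fun l : ℕ => l)) := by
    intro a ha b hb hab
    exact (Nat.coprime_primes (mem_pr.1 ha).2 (mem_pr.1 hb).2).2 hab
  refine ⟨Nat.chineseRemainderOfFinset (fun p => r p + (p - 1) * e p) (fun l => l) (pr 0 w) hs pp,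
    Nat.chineseRemainderOfFinset_lt_prod _ _ hs pp, fun p hp hpw => ?_⟩
  have h1 := (Nat.chineseRemainderOfFinset (fun p => r p + (p - 1) * e p) (fun l => l)
    (pr 0 w) hs pp).2 p (mem_pr.2 ⟨⟨hp.pos, hpw⟩, hp⟩)
  have h2 := h1.add_left (e p)
  refine h2.trans ?_
  have h3 : e p + (r p + (p - 1) * e p) = r p + p * e p := by
    obtain ⟨k, hk⟩ : ∃ k, p = k + 1 := ⟨p - 1, by have := hp.pos; omega⟩
    rw [hk]
    simp only [Nat.add_sub_cancel]
    ring
  rw [h3]
  simp [Nat.ModEq]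

/-- the shifts `t < T` with `W t` in a given class modulo `p` -/
theorem cnt {p W : ℕ} (hp : p.Prime) (hpW : ¬ p ∣ W) (T a b : ℕ) :
    (((range T).filter (fun t => b ≡ a + W * t [MOD p])).card : ℝ) ≤ T / p + 1 := by
  classical
  have hp0 : (0 : ℝ) < p := by exact_mod_cast hp.pos
  rcases ((range T).filter (fun t => b ≡ a + W * t [MOD p])).eq_empty_or_nonempty with h | ⟨t0, h0⟩
  · rw [h]
    simp only [card_empty, Nat.cast_zero]
    positivity
  · have h1 : (range T).filter (fun t => b ≡ a + W * t [MOD p]) ⊆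
        (range T).filter (fun t => t ≡ t0 [MOD p]) := by
      intro t ht
      rw [mem_filter] at ht h0 ⊢
      refine ⟨ht.1, ?_⟩
      have h2 : a + W * t ≡ a + W * t0 [MOD p] := ht.2.symm.trans h0.2
      have h3 : W * t ≡ W * t0 [MOD p] := Nat.ModEq.add_left_cancel' a h2
      exact Nat.ModEq.cancel_left_of_coprime ((Nat.Prime.coprime_iff_not_dvd hp).2 hpW) h3
    have h2 : ((range T).filter (fun t => t ≡ t0 [MOD p])).card ≤ T / p + 1 := by
      rw [← Nat.count_eq_card_filter_range, Nat.count_modEq_card _ hp.pos]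
      split_ifs <;> omega
    have h3 : (((range T).filter (fun t => b ≡ a + W * t [MOD p])).card : ℝ) ≤
        ((T / p : ℕ) : ℝ) + 1 := by exact_mod_cast (card_le_card h1).trans h2
    have h4 : ((T / p : ℕ) : ℝ) ≤ T / p := Nat.cast_div_le
    linarith

/-- the conflict primes -/
noncomputable def cf (B : Finset ℕ) (e : ℕ → ℕ) (c w z : ℕ) : Finset ℕ := by
  classical
  exact (pr w z).filter (fun p => ∃ b ∈ B, b ≡ e p + c [MOD p])

theorem mem_cf {B : Finset ℕ} {e : ℕ → ℕ} {c w z p : ℕ} : p ∈ cf B e c w z ↔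
    p ∈ pr w z ∧ ∃ b ∈ B, b ≡ e p + c [MOD p] := by
  classical
  simp [cf]

/-- the average over the shifts -/
theorem avg (B : Finset ℕ) (e : ℕ → ℕ) (c0 W w z : ℕ) (hW : ∀ p ∈ pr w z, ¬ p ∣ W) {T : ℕ}
    (hT : 0 < T) : ∃ t : ℕ, t < T ∧ ∑ p ∈ cf B e (c0 + W * t) w z, (1 / (p : ℝ)) ≤
      B.card * ∑ p ∈ pr w z, (1 / (p : ℝ)) * (1 / p + 1 / T) := by
  classical
  have hT0 : (0 : ℝ) < T := by exact_mod_cast hT
  have h1 : ∀ t : ℕ, ∑ p ∈ cf B e (c0 + W * t) w z, (1 / (p : ℝ)) ≤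
      ∑ p ∈ pr w z, ∑ b ∈ B, if b ≡ (e p + c0) + W * t [MOD p] then 1 / (p : ℝ) else 0 := by
    intro t
    have h2 : cf B e (c0 + W * t) w z =
        (pr w z).filter (fun p => ∃ b ∈ B, b ≡ e p + (c0 + W * t) [MOD p]) := by
      ext p
      simp [mem_cf]
    rw [h2, sum_filter]
    apply sum_le_sum
    intro p hp
    split_ifs with h
    · obtain ⟨b, hb, hbp⟩ := h
      rw [← add_assoc] at hbp
      have h3 : (if b ≡ (e p + c0) + W * t [MOD p] then 1 / (p : ℝ) else 0) = 1 / p :=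
        if_pos hbp
      refine h3.symm.le.trans ?_
      apply single_le_sum (f := fun b => if b ≡ (e p + c0) + W * t [MOD p] then 1 / (p : ℝ) else 0)
        _ hb
      intro b' _
      split_ifs <;> positivity
    · apply sum_nonneg
      intro b' _
      split_ifs <;> positivity
  have h2 : ∑ t ∈ range T, ∑ p ∈ cf B e (c0 + W * t) w z, (1 / (p : ℝ)) ≤
      T * (B.card * ∑ p ∈ pr w z, (1 / (p : ℝ)) * (1 / p + 1 / T)) := by
    calc _ ≤ ∑ t ∈ range T, ∑ p ∈ pr w z, ∑ b ∈ B,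
          (if b ≡ (e p + c0) + W * t [MOD p] then 1 / (p : ℝ) else 0) :=
          sum_le_sum fun t _ => h1 t
      _ = ∑ p ∈ pr w z, ∑ b ∈ B, ∑ t ∈ range T,
          (if b ≡ (e p + c0) + W * t [MOD p] then 1 / (p : ℝ) else 0) := by
          rw [sum_comm]
          apply sum_congr rfl
          intro p _
          rw [sum_comm]
      _ ≤ ∑ p ∈ pr w z, ∑ b ∈ B, (T / p + 1) * (1 / (p : ℝ)) := by
          apply sum_le_sum
          intro p hp
          apply sum_le_sum
          intro b _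
          rw [← sum_filter, sum_const, nsmul_eq_mul]
          apply mul_le_mul_of_nonneg_right _ (by positivity)
          exact cnt (mem_pr.1 hp).2 (hW p hp) T _ b
      _ = _ := by
          simp only [sum_const, nsmul_eq_mul, mul_sum]
          apply sum_congr rfl
          intro p hp
          have : (p : ℝ) ≠ 0 := by
            have := (mem_pr.1 hp).2.pos
            positivity
          field_simp
  by_contra hcon
  push Not at hcon
  have h3 : ∑ t ∈ range T, (B.card * ∑ p ∈ pr w z, (1 / (p : ℝ)) * (1 / p + 1 / T)) <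
      ∑ t ∈ range T, ∑ p ∈ cf B e (c0 + W * t) w z, (1 / (p : ℝ)) := by
    apply sum_lt_sum_of_nonempty
    · exact ⟨0, mem_range.2 hT⟩
    · intro t ht
      exact hcon t (mem_range.1 ht)
  rw [sum_const, card_range, nsmul_eq_mul] at h3
  linarith

/-- a class modulo `p` missed by `B` with few elements of `S` -/
theorem small_class (S B : Finset ℕ) {p : ℕ} (hp : 0 < p) (hB : 2 * B.card ≤ p) :
    ∃ s : ℕ, (∀ b ∈ B, ¬ b ≡ s [MOD p]) ∧
      ((S.filter (fun n => n ≡ s [MOD p])).card : ℝ) ≤ 2 * S.card / p := by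
  classical
  set G := (range p) \ B.image (· % p) with hG
  have hGc : p ≤ 2 * G.card := by
    have h1 : (range p).card - (B.image (· % p)).card ≤ G.card := le_card_sdiff _ _
    have h2 : (B.image (· % p)).card ≤ B.card := card_image_le
    rw [card_range] at h1
    omega
  have hp0 : (0 : ℝ) < p := by exact_mod_cast hp
  have h3 : ∑ s ∈ G, (S.filter (fun n => n ≡ s [MOD p])).card ≤ S.card := by
    rw [← card_biUnion]
    · apply card_le_card
      intro n hn
      rw [mem_biUnion] at hn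
      obtain ⟨s, _, hs⟩ := hn
      exact (mem_filter.1 hs).1
    · intro s hs s' hs' hne
      rw [Function.onFun, disjoint_left]
      intro n hn hn'
      apply hne
      have h4 := (mem_filter.1 hn).2.symm.trans (mem_filter.1 hn').2
      have h5 : s < p := mem_range.1 (mem_sdiff.1 hs).1
      have h6 : s' < p := mem_range.1 (mem_sdiff.1 hs').1
      exact Nat.ModEq.eq_of_lt_of_lt h4 h5 h6
  by_contra hcon
  push Not at hcon
  have h7 : ∀ s ∈ G, 2 * (S.card : ℝ) / p < ((S.filter (fun n => n ≡ s [MOD p])).card : ℝ) := by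
    intro s hs
    apply hcon
    intro b hb hbs
    have h8 := (mem_sdiff.1 hs).2
    apply h8
    rw [mem_image]
    refine ⟨b, hb, ?_⟩
    rw [hbs]
    exact Nat.mod_eq_of_lt (mem_range.1 (mem_sdiff.1 hs).1)
  have hGne : G.Nonempty := by
    rw [← card_pos]
    omega
  have h8 : ∑ s ∈ G, (2 * (S.card : ℝ) / p) < ∑ s ∈ G,
      ((S.filter (fun n => n ≡ s [MOD p])).card : ℝ) := sum_lt_sum_of_nonempty hGne h7
  rw [sum_const, nsmul_eq_mul] at h8
  have h9 : (∑ s ∈ G, ((S.filter (fun n => n ≡ s [MOD p])).card : ℝ)) ≤ S.card := by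
    exact_mod_cast h3
  have h10 : (S.card : ℝ) ≤ G.card * (2 * S.card / p) := by
    have h11 : (p : ℝ) ≤ 2 * G.card := by exact_mod_cast hGc
    rw [mul_div_assoc', le_div_iff₀ hp0]
    have : (0 : ℝ) ≤ S.card := Nat.cast_nonneg _
    nlinarith
  linarith

/-- **Gluing.** -/
theorem glue {B C : Finset ℕ} {r e : ℕ → ℕ} {y w T : ℕ} (hy : ∀ b ∈ B, b ≤ y)
    (hB : ∀ p : ℕ, p.Prime → ∀ b ∈ B, ¬ b ≡ r p [MOD p]) (hBw : 2 * B.card ≤ w)
    (hC : C ⊆ Icc 1 y) (he : ∀ p : ℕ, p.Prime → ∀ n ∈ C, ¬ n ≡ e p [MOD p]) (hT : 0 < T)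
    (h1Q : 0 ≤ 1 - 2 * ((B.card : ℝ) * ∑ p ∈ pr w (y + 1), (1 / (p : ℝ)) * (1 / p + 1 / T))) :
    ∃ (B' : Finset ℕ) (r' : ℕ → ℕ), B ⊆ B' ∧ (∀ b ∈ B', b = 0 → b ∈ B) ∧
      (∀ p : ℕ, p.Prime → ∀ b ∈ B', ¬ b ≡ r' p [MOD p]) ∧ (∀ p : ℕ, p ≤ w → r' p = r p) ∧
      (1 - 2 * (B.card * ∑ p ∈ pr w (y + 1), (1 / (p : ℝ)) * (1 / p + 1 / T))) *
        ((C.card : ℝ) - (∏ l ∈ pr 0 w, l : ℕ) * T) ≤ ((B'.filter (fun n => n ∈ Icc 1 y)).card : ℝ)
      := by
  classical
  obtain ⟨c0, hc0, hc0'⟩ := crt e r w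
  set W := ∏ l ∈ pr 0 w, l with hW
  have hWp : ∀ p ∈ pr w (y + 1), ¬ p ∣ W := by
    intro p hp hdvd
    rw [mem_pr] at hp
    rw [hW, Prime.dvd_finsetProd_iff hp.2.prime] at hdvd
    obtain ⟨l, hl, hpl⟩ := hdvd
    rw [mem_pr] at hl
    have := (Nat.prime_dvd_prime_iff_eq hp.2 hl.2).1 hpl
    omega
  obtain ⟨t, ht, havg⟩ := avg B e c0 W w (y + 1) hWp hT
  set c := c0 + W * t with hc
  have hcW : c ≤ W * T := by
    rw [hc]
    calc c0 + W * t ≤ W + W * t := by omega
      _ = W * (t + 1) := by ring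
      _ ≤ W * T := Nat.mul_le_mul_left _ ht
  set L := ∑ p ∈ cf B e c w (y + 1), (1 / (p : ℝ)) with hL
  -- the translate
  set S := (C.image (· + c)).filter (· ≤ y) with hS
  have hSm : ∀ n ∈ S, 1 ≤ n ∧ n ≤ y ∧ ∃ m ∈ C, n = m + c := by
    intro n hn
    rw [hS, mem_filter, mem_image] at hn
    obtain ⟨⟨m, hm, hmn⟩, h2⟩ := hn
    have h3 := mem_Icc.1 (hC hm)
    exact ⟨by omega, h2, m, hm, hmn.symm⟩
  have hScard : (C.card : ℝ) - W * T ≤ S.card := by
    have h1 : (C.image (· + c)).card = C.card := card_image_of_injective _ (add_left_injective c)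
    have h2 : C.image (· + c) ⊆ S ∪ Ioc y (y + c) := by
      intro n hn
      by_cases hny : n ≤ y
      · exact mem_union_left _ (mem_filter.2 ⟨hn, hny⟩)
      · apply mem_union_right
        rw [mem_image] at hn
        obtain ⟨m, hm, hmn⟩ := hn
        have h3 := mem_Icc.1 (hC hm)
        rw [mem_Ioc]
        omega
    have h3 := (card_le_card h2).trans (card_union_le _ _)
    rw [h1, Nat.card_Ioc, Nat.add_sub_cancel_left] at h3
    have h4 : C.card ≤ S.card + W * T := h3.trans (by omega)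
    have h5 : (C.card : ℝ) ≤ S.card + W * T := by exact_mod_cast h4
    linarith
  have hse : ∀ p : ℕ, p.Prime → ∀ n ∈ S, ¬ n ≡ e p + c [MOD p] := by
    intro p hp n hn hnp
    obtain ⟨_, _, m, hm, rfl⟩ := hSm n hn
    exact he p hp m hm (Nat.ModEq.add_right_cancel' c hnp)
  have hsc : ∀ p ∈ cf B e c w (y + 1), ∃ s : ℕ, (∀ b ∈ B, ¬ b ≡ s [MOD p]) ∧
      ((S.filter (fun n => n ≡ s [MOD p])).card : ℝ) ≤ 2 * S.card / p := by
    intro p hp
    rw [mem_cf, mem_pr] at hp
    exact small_class S B hp.1.2.pos (by omega)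
  choose! s hs1 hs2 using hsc
  obtain ⟨S', hS'm, hS'c⟩ : ∃ S' : Finset ℕ, (∀ {n}, n ∈ S' ↔ n ∈ S ∧
      ∀ q ∈ cf B e c w (y + 1), ¬ n ≡ s q [MOD q]) ∧ (1 - 2 * L) * S.card ≤ S'.card := by
    have h1 := card_diff_le S (cf B e c w (y + 1)) s
    refine ⟨_, ?_, le_trans ?_ h1⟩
    · intro n
      rw [mem_filter]
    have h2 : ∑ q ∈ cf B e c w (y + 1), ((S.filter (fun n => n ≡ s q [MOD q])).card : ℝ) ≤
        2 * L * S.card := by
      rw [hL, mul_sum, sum_mul]
      apply sum_le_sum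
      intro q hq
      refine (hs2 q hq).trans (le_of_eq ?_)
      ring
    linarith
  have hL1 : L ≤ B.card * ∑ p ∈ pr w (y + 1), (1 / (p : ℝ)) * (1 / p + 1 / T) := havg
  refine ⟨B ∪ S', fun p => if p ≤ w then r p else if p ∈ cf B e c w (y + 1) then s p else
    if p ≤ y + 1 then e p + c else y + 1, subset_union_left, ?_, ?_, ?_, ?_⟩
  · intro b hb hb0
    rcases mem_union.1 hb with h | h
    · exact h
    · have := hSm b (hS'm.1 h).1
      omega
  · intro p hp b hb
    simp only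
    split_ifs with h1 h2 h3
    · rcases mem_union.1 hb with h | h
      · exact hB p hp b h
      · intro hbp
        have h5 : W * t ≡ 0 [MOD p] := by
          rw [Nat.modEq_zero_iff_dvd]
          apply Dvd.dvd.mul_right
          rw [hW]
          exact dvd_prod_of_mem _ (mem_pr.2 ⟨⟨hp.pos, h1⟩, hp⟩)
        have h6 := h5.add_left (e p + c0)
        have h7 : r p ≡ e p + c [MOD p] := by
          rw [hc, ← add_assoc]
          exact (hc0' p hp h1).symm.trans h6.symm
        exact hse p hp b (hS'm.1 h).1 (hbp.trans h7)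
    · rcases mem_union.1 hb with h | h
      · exact hs1 p h2 b h
      · exact (hS'm.1 h).2 p h2
    · rcases mem_union.1 hb with h | h
      · intro hbp
        apply h2
        rw [mem_cf, mem_pr]
        exact ⟨⟨⟨by omega, h3⟩, hp⟩, b, h, hbp⟩
      · exact hse p hp b (hS'm.1 h).1
    · have hby : b ≤ y := by
        rcases mem_union.1 hb with h | h
        · exact hy b h
        · exact (hSm b (hS'm.1 h).1).2.1
      intro hbp
      have := Nat.ModEq.eq_of_lt_of_lt hbp (by omega) (by omega)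
      omega
  · intro p hp
    simp only
    rw [if_pos hp]
  · have h1 : S' ⊆ (B ∪ S').filter (fun n => n ∈ Icc 1 y) := by
      intro n hn
      rw [mem_filter, mem_Icc]
      have := hSm n (hS'm.1 hn).1
      exact ⟨mem_union_right _ hn, this.1, this.2.1⟩
    have h2 : (S'.card : ℝ) ≤ (((B ∪ S').filter (fun n => n ∈ Icc 1 y)).card : ℝ) := by
      exact_mod_cast card_le_card h1
    refine le_trans ?_ h2
    set Q := B.card * ∑ p ∈ pr w (y + 1), (1 / (p : ℝ)) * (1 / p + 1 / T) with hQ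
    have hQL : 1 - 2 * Q ≤ 1 - 2 * L := by linarith
    calc (1 - 2 * Q) * ((C.card : ℝ) - (W : ℕ) * T) ≤ (1 - 2 * Q) * S.card :=
          mul_le_mul_of_nonneg_left hScard h1Q
      _ ≤ (1 - 2 * L) * S.card := mul_le_mul_of_nonneg_right hQL (Nat.cast_nonneg _)
      _ ≤ _ := hS'c

end RHI88
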