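import Pool.Agent.H88.RHI.Asy
import Pool.Agent.H14.RHC.TuplesH
import Pool.Agent.H58.RHC.Fin2

/-!
# One infinite admissible set which is as large as possible at infinitely many scales
-/

set_option autoImplicit false

open Finset Real Filter Topology
open Pool.Agent.H85.Rho hiding PP MM TT

namespace RHI88

/-- a finite set with missed classes -/
def St : Type := {x : Finset ℕ × (ℕ → ℕ) // (∀ p : ℕ, p.Prime → ∀ b ∈ x.1, ¬ b ≡ x.2 p [MOD p]) ∧
  0 ∉ x.1}

/-- the largest admissible subset of `[1, y]` -/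
theorem exists_max (y : ℕ) : ∃ C : Finset ℕ, C ⊆ Icc 1 y ∧ Adm C ∧
    ∀ D : Finset ℕ, D ⊆ Icc 1 y → Adm D → D.card ≤ C.card := by
  classical
  have hne : ((Icc 1 y).powerset.filter (fun D => Adm D)).Nonempty :=
    ⟨∅, by
      rw [mem_filter, mem_powerset]
      exact ⟨empty_subset _, fun p _ => ⟨0, fun a ha => absurd ha (notMem_empty a)⟩⟩⟩
  obtain ⟨C, hC, hmax⟩ := exists_max_image _ (fun D : Finset ℕ => D.card) hne
  rw [mem_filter, mem_powerset] at hC
  refine ⟨C, hC.1, hC.2, fun D hD hDa => hmax D ?_⟩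
  rw [mem_filter, mem_powerset]
  exact ⟨hD, hDa⟩

/-- a translate of a given admissible set can be added -/
theorem add_set (n : ℕ) (σ : St) (D : Finset ℕ) : ∃ σ' : St, σ.1.1 ⊆ σ'.1.1 ∧
    (∀ p : ℕ, p ≤ n → σ'.1.2 p = σ.1.2 p) ∧ (Adm D → ∃ c : ℕ, ∀ d ∈ D, d + c ∈ σ'.1.1) := by
  classical
  by_cases hD : Adm D
  · obtain ⟨⟨B, r⟩, hB, hB0⟩ := σ
    simp only at hB hB0 ⊢
    choose e he using hD
    set w : ℕ := max n (B.card + D.card) with hw
    obtain ⟨c0, _, hc0⟩ := crt (fun p => if h : p.Prime then e p h else 0) r w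
    set W := ∏ l ∈ pr 0 w, l with hW
    have hW0 : 0 < W := prod_pos fun l hl => (mem_pr.1 hl).2.pos
    set B' := B ∪ D.image (· + (c0 + W)) with hB'
    have hcard : B'.card ≤ B.card + D.card :=
      (card_union_le _ _).trans (Nat.add_le_add_left card_image_le _)
    have hmiss : ∀ p : ℕ, w < p → ∃ c : ℕ, ∀ a ∈ B', ¬ a ≡ c [MOD p] := fun p hp =>
      misses (hcard.trans_lt ((le_max_right n _).trans_lt hp))
    choose! s hs using hmiss
    refine ⟨⟨(B', fun p => if p ≤ w then r p else s p), ?_, ?_⟩, subset_union_left, ?_,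
      fun _ => ⟨c0 + W, fun d hd => mem_union_right _ (mem_image_of_mem _ hd)⟩⟩
    · intro p hp b hb
      simp only
      split_ifs with h
      · rcases mem_union.1 hb with h1 | h1
        · exact hB p hp b h1
        · rw [mem_image] at h1
          obtain ⟨d, hd, rfl⟩ := h1
          intro hbp
          apply he p hp d hd
          have h2 := hc0 p hp h
          simp only [dif_pos hp] at h2
          have h3 : W ≡ 0 [MOD p] := by
            rw [Nat.modEq_zero_iff_dvd, hW]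
            exact dvd_prod_of_mem _ (mem_pr.2 ⟨⟨hp.pos, h⟩, hp⟩)
          have h4 : e p hp + (c0 + W) ≡ r p [MOD p] := by
            rw [← add_assoc]
            exact (h3.add_left _).trans h2
          exact Nat.ModEq.add_right_cancel' _ (hbp.trans h4.symm)
      · exact hs p (by omega) b hb
    · rw [mem_union, mem_image]
      rintro (h | ⟨d, _, hd⟩)
      · exact hB0 h
      · omega
    · intro p hp
      simp only
      rw [if_pos (hp.trans (le_max_left _ _))]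
  · exact ⟨σ, subset_rfl, fun _ _ => rfl, fun h => absurd h hD⟩

/-- one step -/
theorem step {Y : Set ℕ} (hY : Y.Infinite) (D : ℕ → Finset ℕ) (n : ℕ) (σ : St) :
    ∃ (σ' : St) (y : ℕ), n ≤ y ∧ y ∈ Y ∧
    σ.1.1 ⊆ σ'.1.1 ∧ (∀ p : ℕ, p ≤ n → σ'.1.2 p = σ.1.2 p) ∧
    (∀ C : Finset ℕ, C ⊆ Icc 1 y → Adm C →
      (1 - 1 / Real.log y) * (C.card : ℝ) ≤
        ((σ'.1.1.filter (fun n => n ∈ Icc 1 y)).card : ℝ)) ∧
    (Adm (D n) → ∃ c : ℕ, ∀ d ∈ D n, d + c ∈ σ'.1.1) := by
  classical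
  obtain ⟨σ1, hσ1, hσ2, hσ3⟩ := add_set n σ (D n)
  obtain ⟨⟨B, r⟩, hB, hB0⟩ := σ1
  simp only at hB hB0 hσ1 hσ2 hσ3 ⊢
  have hev := (glue_ev hB n).and ((RHC.dense_S (c := 0) (Real.log_pos (by norm_num))).and
    (pi_facts.and ((eventually_ge_atTop n).and (tendsto_logN.eventually_ge_atTop 1))))
  obtain ⟨N, hN⟩ := eventually_atTop.1 hev
  obtain ⟨y, hyY, hyN⟩ := hY.exists_gt N
  obtain ⟨h1, ⟨A0, hA1, hA2, hA3⟩, ⟨_, h4⟩, h5, h6⟩ := hN y hyN.le
  obtain ⟨C, hC, hCa, hCm⟩ := exists_max y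
  have hCc : Real.sqrt y / 2 ≤ C.card := by
    have h7 : (A0.card : ℝ) ≤ C.card := by exact_mod_cast hCm A0 hA1 hA2
    have h8 : (Nat.primeCounting y : ℝ) ≤ A0.card := by simpa using hA3
    have h9 : 0 ≤ Real.sqrt y := Real.sqrt_nonneg _
    linarith
  obtain ⟨B', r', h7, h8, h9, h10, h11⟩ := h1 C hC hCa hCc
  refine ⟨⟨(B', r'), h9, fun h0 => hB0 (h8 0 h0 rfl)⟩, y, h5, hyY, hσ1.trans h7,
    fun p hp => (h10 p hp).trans (hσ2 p hp), fun D hD hDa => ?_, fun hDn => ?_⟩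
  swap
  · obtain ⟨c, hc⟩ := hσ3 hDn
    exact ⟨c, fun d hd => h7 (hc d hd)⟩
  refine le_trans ?_ h11
  apply mul_le_mul_of_nonneg_left
  · exact_mod_cast hCm D hD hDa
  · have : 1 / Real.log y ≤ 1 := by
      rw [div_le_one (by linarith)]
      exact h6
    linarith

/-- **One infinite admissible set.** -/
theorem exists_inf {Y : Set ℕ} (hY : Y.Infinite) (B : Finset ℕ) (hB0 : 0 ∉ B) (hB : Adm B) :
    ∃ A : Set ℕ, ↑B ⊆ A ∧ 0 ∉ A ∧ (∀ p : ℕ, p.Prime → ∃ r : ℕ, ∀ a ∈ A, ¬ a ≡ r [MOD p]) ∧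
      (∀ D : Finset ℕ, Adm D → ∃ c : ℕ, ∀ d ∈ D, d + c ∈ A) ∧
      ∀ N : ℕ, ∃ y : ℕ, N ≤ y ∧ y ∈ Y ∧ ∀ C : Finset ℕ, C ⊆ Icc 1 y → Adm C →
        (1 - 1 / Real.log y) * (C.card : ℝ) ≤ ((A ∩ Set.Icc 1 y).ncard : ℝ) := by
  classical
  choose r hr using hB
  obtain ⟨E, hE⟩ := exists_surjective_nat (Finset ℕ)
  choose f g h1 h2 h3 h4 h5 h5' using step hY E
  let σ0 : St := ⟨(B, fun p => if h : p.Prime then r p h else 0), fun p hp b hb => by
    simp only [dif_pos hp]
    exact hr p hp b hb, hB0⟩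
  let s : ℕ → St := fun n => Nat.rec σ0 (fun n σ => f n σ) n
  have hs : ∀ n, s (n + 1) = f n (s n) := fun n => rfl
  have hmono : Monotone (fun n => (s n).1.1) := by
    apply monotone_nat_of_le_succ
    intro n
    simp only [hs]
    exact h3 n (s n)
  have hcl : ∀ p n, p ≤ n → (s n).1.2 p = (s p).1.2 p := by
    intro p n hpn
    induction n, hpn using Nat.le_induction with
    | base => rfl
    | succ n hn ih => rw [hs, h4 n (s n) p hn, ih]
  refine ⟨{a | ∃ n, a ∈ (s n).1.1}, ?_, ?_, ?_, ?_, ?_⟩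
  · intro b hb
    exact ⟨0, hb⟩
  · rintro ⟨n, hn⟩
    exact (s n).2.2 hn
  · intro p hp
    refine ⟨(s p).1.2 p, ?_⟩
    rintro a ⟨n, hn⟩
    have h6 : a ∈ (s (max n p)).1.1 := hmono (le_max_left n p) hn
    have h7 := (s (max n p)).2.1 p hp a h6
    rwa [hcl p (max n p) (le_max_right n p)] at h7
  · intro D hD
    obtain ⟨m, rfl⟩ := hE D
    obtain ⟨c, hc⟩ := h5' m (s m) hD
    exact ⟨c, fun d hd => ⟨m + 1, hc d hd⟩⟩
  · intro N
    refine ⟨g N (s N), h1 N (s N), h2 N (s N), fun C hC hCa => ?_⟩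
    refine (h5 N (s N) C hC hCa).trans ?_
    rw [← hs]
    have h6 : (((s (N + 1)).1.1.filter (fun n => n ∈ Icc 1 (g N (s N)))).card) ≤
        ({a | ∃ n, a ∈ (s n).1.1} ∩ Set.Icc 1 (g N (s N))).ncard := by
      rw [← Set.ncard_coe_finset]
      apply Set.ncard_le_ncard
      · intro a ha
        simp only [coe_filter, Set.mem_ofPred_eq, mem_Icc] at ha
        exact ⟨⟨N + 1, ha.1⟩, ha.2⟩
      · exact (Set.finite_Icc 1 _).subset Set.inter_subset_right
    exact_mod_cast h6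

/-- **One infinite admissible set, with the lower bound of `dense_S`.** -/
theorem inf_dense {Y : Set ℕ} (hY : Y.Infinite) (B : Finset ℕ) (hB0 : 0 ∉ B) (hB : Adm B) :
    ∃ A : Set ℕ, ↑B ⊆ A ∧ 0 ∉ A ∧ (∀ p : ℕ, p.Prime → ∃ r : ℕ, ∀ a ∈ A, ¬ a ≡ r [MOD p]) ∧
      (∀ D : Finset ℕ, Adm D → ∃ c : ℕ, ∀ d ∈ D, d + c ∈ A) ∧
      ∀ c : ℝ, c < Real.log 2 → {y ∈ Y | (∀ C : Finset ℕ, C ⊆ Icc 1 y → Adm C →
        (1 - 1 / Real.log y) * (C.card : ℝ) ≤ ((A ∩ Set.Icc 1 y).ncard : ℝ)) ∧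
        (1 + c * RHC.Glf y) * (Nat.primeCounting y : ℝ) ≤ ((A ∩ Set.Icc 1 y).ncard : ℝ)}.Infinite
        := by
  obtain ⟨A, h1, h2, h3, h3', h4⟩ := exists_inf hY B hB0 hB
  refine ⟨A, h1, h2, h3, h3', fun c hc => ?_⟩
  obtain ⟨c', hc1, hc2⟩ := exists_between hc
  -- `1 / log y` is small against `Glf y`
  have hG : ∀ᶠ y : ℕ in atTop, (1 + c * RHC.Glf y) * (Nat.primeCounting y : ℝ) ≤
      (1 - 1 / Real.log y) * ((1 + c' * RHC.Glf y) * (Nat.primeCounting y : ℝ)) := by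
    have hlim : ∀ᶠ y : ℕ in atTop, 2 / Real.log y ≤ (c' - c) * RHC.Glf y := by
      have hcc : 0 < c' - c := by linarith
      have hll := RHC.ll_top
      have h5 : ∀ᶠ y : ℕ in atTop, 2 / (c' - c) * Real.log (Real.log (y : ℝ)) ^ 2 ≤
          Real.log (y : ℝ) := by
        have h6 := (isLittleO_pow_log_id_atTop (n := 2)).bound (c := 1 / (2 / (c' - c)))
          (by positivity)
        filter_upwards [tendsto_logN.eventually h6, tendsto_logN.eventually_ge_atTop 1] with y h7 h8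
        simp only [norm_pow, Real.norm_eq_abs, sq_abs, id] at h7
        rw [abs_of_nonneg (by linarith : (0 : ℝ) ≤ Real.log y)] at h7
        have h9 : 0 < 2 / (c' - c) := by positivity
        have h10 := mul_le_mul_of_nonneg_left h7 h9.le
        calc _ ≤ _ := h10
          _ = _ := by
            field_simp
      filter_upwards [h5, tendsto_logN.eventually_ge_atTop 1, hll.eventually_ge_atTop 1,
        RHC.lll_top.eventually_gt_atTop 0, RHC.llll_top.eventually_ge_atTop 1]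
        with y h6 h7 h8 h9 h10
      unfold RHC.Glf
      have h11 : Real.log (Real.log (Real.log (y : ℝ))) ≤ Real.log (Real.log y) :=
        (Real.log_le_sub_one_of_pos (by linarith)).trans (by linarith)
      rw [mul_div_assoc', div_le_div_iff₀ (by linarith) (by positivity)]
      have h12 : Real.log (Real.log (y : ℝ)) * Real.log (Real.log (Real.log y)) ≤
          Real.log (Real.log y) ^ 2 := by
        rw [sq]
        exact mul_le_mul_of_nonneg_left h11 (by linarith)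
      have h13 : 2 * Real.log (Real.log (y : ℝ)) ^ 2 ≤ (c' - c) * Real.log y := by
        rw [div_mul_eq_mul_div, div_le_iff₀ hcc] at h6
        linarith
      have h14 : (c' - c) * Real.log y * 1 ≤
          (c' - c) * Real.log y * Real.log (Real.log (Real.log (Real.log y))) :=
        mul_le_mul_of_nonneg_left h10 (by positivity)
      calc _ ≤ 2 * Real.log (Real.log (y : ℝ)) ^ 2 := by linarith
        _ ≤ (c' - c) * Real.log y * 1 := by linarith
        _ ≤ _ := h14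
        _ = _ := by ring
    have hsm : ∀ᶠ y : ℕ in atTop, |c'| * RHC.Glf y ≤ 1 := by
      have h5 := (RHC.Glf_zero.const_mul |c'|)
      rw [mul_zero] at h5
      exact h5.eventually_le_const (by norm_num)
    filter_upwards [hlim, hsm, tendsto_logN.eventually_ge_atTop 1, RHC.Glf_pos]
      with y h5 h6 h7 h8
    rw [← mul_assoc]
    apply mul_le_mul_of_nonneg_right _ (Nat.cast_nonneg _)
    have h9 : c' * RHC.Glf y ≤ 1 :=
      (mul_le_mul_of_nonneg_right (le_abs_self c') h8.le).trans h6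
    have h10 : 0 ≤ 1 / Real.log (y : ℝ) := by positivity
    have h11 : 2 / Real.log (y : ℝ) = 2 * (1 / Real.log y) := by ring
    rw [h11] at h5
    nlinarith
  obtain ⟨N, hN⟩ := eventually_atTop.1 (hG.and ((RHC.dense_S hc2).and
    (tendsto_logN.eventually_ge_atTop 1)))
  rw [Set.infinite_iff_exists_gt]
  intro M
  obtain ⟨y, hy1, hy2, hy3⟩ := h4 (max N (M + 1))
  obtain ⟨h5, ⟨A0, h6, h7, h8⟩, h9⟩ := hN y (le_of_max_le_left hy1)
  refine ⟨y, ⟨hy2, hy3, ?_⟩, by have := le_of_max_le_right hy1; omega⟩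
  refine h5.trans (le_trans ?_ (hy3 A0 h6 h7))
  apply mul_le_mul_of_nonneg_left
  · rw [RHC.Glf, ← mul_div_assoc]
    exact h8
  · have : 1 / Real.log y ≤ 1 := by
      rw [div_le_one (by linarith)]
      exact h9
    linarith

end RHI88
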