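import Pool.Agent.H88.RHI.Inf

/-!
# Prime tuples along one sequence
-/

set_option autoImplicit false

open Finset Real Filter Topology
open Pool.Agent.H85.Rho hiding PP MM TT

namespace RHI88

/-- the arithmetic of `RHC.tuples_G` -/
theorem alg {κ : ℝ} {c0 c1 : ℝ} (hc1 : 0 ≤ c1) (hc : c0 + c1 < κ) :
    ∃ c : ℝ, c < κ ∧ ∀ᶠ y : ℕ in atTop, ∀ k : ℕ, k ≤ y →
      (1 + c * RHC.Glf y) * (Nat.primeCounting y : ℝ) ≤ k →
      Real.sqrt y / 2 ≤ k ∧ ∀ v : ℝ, v ≤ (1 + c0 * RHC.Glf y) * (Nat.primeCounting y : ℝ) →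
        v < (1 - c1 * RHC.Glf k) * k := by
  set G : ℕ → ℝ := RHC.Glf with hGdef
  set δ : ℝ := κ - (c0 + c1) with hδ
  have hδ0 : 0 < δ := by rw [hδ]; linarith
  set c : ℝ := c0 + c1 + δ / 2 with hcd
  have hcκ : c < κ := by rw [hcd, hδ]; linarith
  refine ⟨c, hcκ, ?_⟩
  set η : ℝ := δ / (4 * (c1 + 1)) with hη
  have hη0 : 0 < η := by rw [hη]; positivity
  have hη1 : c1 * η ≤ δ / 4 := by
    rw [hη, mul_div_assoc', div_le_div_iff₀ (by positivity) (by norm_num)]
    nlinarith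
  set T : ℝ := (|c| + 1) * (c1 * (1 + η) + 1) with hT
  have hT1 : 1 ≤ T := by
    have h1 : 0 ≤ c1 * (1 + η) := by positivity
    rw [hT]
    nlinarith [abs_nonneg c]
  have hT0 : 0 < T := by linarith
  set g : ℝ := min (1 / 2) (δ / 8) / T with hg
  have hg0 : 0 < g := by
    rw [hg]
    apply div_pos _ hT0
    apply lt_min <;> linarith
  have hGsm : ∀ᶠ y : ℕ in atTop, G y < g := RHC.Glf_zero.eventually (gt_mem_nhds hg0)
  filter_upwards [hGsm, RHC.Glf_pos, RHC.Glf_slow η hη0, pi_facts, eventually_ge_atTop 1]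
    with y hGg hG hGs' ⟨_, hpi⟩ hyK k hky hk
  have hTg : T * G y ≤ min (1 / 2) (δ / 8) := by
    have h1 : T * G y ≤ T * g := by gcongr
    have h2 : T * g = min (1 / 2) (δ / 8) := by rw [hg]; field_simp
    linarith
  have hTg1 : T * G y ≤ 1 / 2 := hTg.trans (min_le_left _ _)
  have hTg2 : T * G y ≤ δ / 8 := hTg.trans (min_le_right _ _)
  have hc1η : 0 ≤ c1 * (1 + η) := by positivity
  have hcT : |c| ≤ T := by rw [hT]; nlinarith [abs_nonneg c]
  have hcG : |c| * G y ≤ 1 / 2 := by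
    have : |c| * G y ≤ T * G y := by gcongr
    linarith
  have hc1T : c1 * (1 + η) ≤ T := by rw [hT]; nlinarith [abs_nonneg c]
  have hc1G : c1 * (1 + η) * G y ≤ 1 / 2 := by
    have : c1 * (1 + η) * G y ≤ T * G y := by gcongr
    linarith
  have hcc : |c| * (c1 * (1 + η)) ≤ T := by rw [hT]; nlinarith [abs_nonneg c]
  have hccG : c * (c1 * (1 + η)) * G y ≤ δ / 8 := by
    have h1 : c * (c1 * (1 + η)) ≤ |c| * (c1 * (1 + η)) := by
      apply mul_le_mul_of_nonneg_right (le_abs_self c) hc1η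
    have h2 : c * (c1 * (1 + η)) * G y ≤ T * G y := by
      apply mul_le_mul_of_nonneg_right (h1.trans hcc) hG.le
    linarith
  have hcG' : -(1 / 2) ≤ c * G y := by
    have h1 : -(|c| * G y) ≤ c * G y := by
      have := mul_le_mul_of_nonneg_right (neg_abs_le c) hG.le
      linarith
    linarith
  have hy0 : (0 : ℝ) < y := by
    have : 0 < y := by omega
    exact_mod_cast this
  have hsq : 0 < Real.sqrt y := Real.sqrt_pos.2 hy0
  have hpi0 : (0 : ℝ) < Nat.primeCounting y := lt_of_lt_of_le hsq hpi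
  have hcardl : Real.sqrt y / 2 ≤ (k : ℝ) := by
    have h1 : (1 / 2) * (Nat.primeCounting y : ℝ) ≤ (1 + c * G y) * Nat.primeCounting y := by
      apply mul_le_mul_of_nonneg_right _ hpi0.le
      linarith
    linarith
  have hk0 : (0 : ℝ) < k := by linarith [half_pos hsq]
  have hGk := hGs' k hcardl hky
  refine ⟨hcardl, fun v hv => ?_⟩
  refine lt_of_le_of_lt hv ?_
  have h8 : (1 - c1 * (1 + η) * G y) * (k : ℝ) ≤ (1 - c1 * G k) * k := by
    apply mul_le_mul_of_nonneg_right _ hk0.le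
    have : c1 * G k ≤ c1 * ((1 + η) * G y) := mul_le_mul_of_nonneg_left hGk hc1
    linarith
  have h9 : (1 - c1 * (1 + η) * G y) * ((1 + c * G y) * (Nat.primeCounting y : ℝ)) ≤
      (1 - c1 * (1 + η) * G y) * k := by
    apply mul_le_mul_of_nonneg_left hk
    linarith
  refine lt_of_lt_of_le ?_ (h9.trans h8)
  rw [← mul_assoc]
  apply mul_lt_mul_of_pos_right _ hpi0
  have h10 : (1 - c1 * (1 + η) * G y) * (1 + c * G y) = 1 + c0 * G y +
      G y * (c - c0 - c1 - c1 * η - c * (c1 * (1 + η)) * G y) := by ring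
  rw [h10]
  have h11 : 0 < c - c0 - c1 - c1 * η - c * (c1 * (1 + η)) * G y := by
    have : c - c0 - c1 = δ / 2 := by rw [hcd]; ring
    linarith
  have := mul_pos hG h11
  linarith

/-- **Prime tuples along one sequence.** -/
theorem nest {c0 c1 : ℝ} (hc1 : 0 ≤ c1) (hc : c0 + c1 < Real.log 2)
    (h : ∀ Y : ℕ, ∃ y : ℕ, Y ≤ y ∧ ∃ X : ℕ, ∀ x : ℕ, X ≤ x →
      (Nat.primeCounting (x + y) : ℝ) - Nat.primeCounting x ≤
        (1 + c0 * RHC.Glf y) * Nat.primeCounting y)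
    (B : Finset ℕ) (hB0 : 0 ∉ B) (hB : Adm B) :
    ∃ a : ℕ → ℕ, StrictMono a ∧ (∀ b ∈ B, ∃ i, a i = b) ∧ (∀ i, 0 < a i) ∧
      (∀ D : Finset ℕ, Adm D → ∃ c : ℕ, ∀ d ∈ D, ∃ i, a i = d + c) ∧
      (∀ p : ℕ, p.Prime → ∃ r : ℕ, ∀ i : ℕ, ¬ a i ≡ r [MOD p]) ∧
      ∀ K : ℕ, ∃ k : ℕ, K ≤ k ∧ ∃ X : ℕ, ∀ x : ℕ, X ≤ x →
        (((range k).filter (fun i => (x + a i).Prime)).card : ℝ) <
          (1 - c1 * RHC.Glf k) * k := by
  classical
  set Y : Set ℕ := {y | ∃ X : ℕ, ∀ x : ℕ, X ≤ x →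
      (Nat.primeCounting (x + y) : ℝ) - Nat.primeCounting x ≤
        (1 + c0 * RHC.Glf y) * Nat.primeCounting y} with hYd
  have hY : Y.Infinite := by
    rw [Set.infinite_iff_exists_gt]
    intro M
    obtain ⟨y, hy, h1⟩ := h (M + 1)
    exact ⟨y, h1, by omega⟩
  obtain ⟨A, hA1, hA2, hA3, hA3', hA4⟩ := inf_dense hY B hB0 hB
  obtain ⟨c, hcκ, halg⟩ := alg hc1 hc
  have hinf := hA4 c hcκ
  -- scales
  have hsc : ∀ K : ℕ, ∃ y : ℕ, ∃ k : ℕ, k = Nat.count (· ∈ A) (y + 1) ∧ K ≤ k ∧ y ∈ Y ∧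
      ∀ v : ℝ, v ≤ (1 + c0 * RHC.Glf y) * (Nat.primeCounting y : ℝ) →
        v < (1 - c1 * RHC.Glf k) * k := by
    intro K
    obtain ⟨N, hN⟩ := eventually_atTop.1 (halg.and (eventually_ge_atTop (4 * K ^ 2)))
    obtain ⟨y, ⟨hy1, _, hy2⟩, hyN⟩ := hinf.exists_gt N
    obtain ⟨h1, h2⟩ := hN y hyN.le
    have hk : (A ∩ Set.Icc 1 y).ncard = Nat.count (· ∈ A) (y + 1) := by
      rw [Nat.count_eq_card_filter_range, ← Set.ncard_coe_finset]
      congr 1
      ext a
      simp only [Set.mem_inter_iff, Set.mem_Icc, coe_filter, mem_range, Set.mem_ofPred_eq]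
      constructor
      · rintro ⟨h3, h4, h5⟩
        exact ⟨by omega, h3⟩
      · rintro ⟨h3, h4⟩
        refine ⟨h4, ?_, by omega⟩
        rcases Nat.eq_zero_or_pos a with h5 | h5
        · rw [h5] at h4
          exact absurd h4 hA2
        · exact h5
    rw [hk] at hy2
    have hky : Nat.count (· ∈ A) (y + 1) ≤ y := by
      rw [← hk]
      calc (A ∩ Set.Icc 1 y).ncard ≤ (Set.Icc 1 y).ncard :=
            Set.ncard_le_ncard Set.inter_subset_right (Set.finite_Icc 1 y)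
        _ = y := by
          rw [← Finset.coe_Icc, Set.ncard_coe_finset, Nat.card_Icc]
          omega
    obtain ⟨h3, h4⟩ := h1 _ hky hy2
    refine ⟨y, _, rfl, ?_, hy1, h4⟩
    have h5 : ((2 * K : ℕ) : ℝ) ≤ Real.sqrt y := by
      apply Real.le_sqrt_of_sq_le
      have : (2 * K) ^ 2 ≤ y := by
        have : (2 * K) ^ 2 = 4 * K ^ 2 := by ring
        omega
      exact_mod_cast this
    have h6 : (K : ℝ) ≤ (Nat.count (· ∈ A) (y + 1) : ℕ) := by
      push_cast at h5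
      linarith
    exact_mod_cast h6
  have hAinf : (Set.ofPred (· ∈ A)).Infinite := by
    intro hfin
    obtain ⟨y, k, hk, hK, _⟩ := hsc (hfin.toFinset.card + 1)
    have h1 : Nat.count (· ∈ A) (y + 1) ≤ hfin.toFinset.card := by
      rw [Nat.count_eq_card_filter_range]
      apply card_le_card
      intro a ha
      rw [Set.Finite.mem_toFinset]
      exact (mem_filter.1 ha).2
    omega
  refine ⟨Nat.nth (· ∈ A), Nat.nth_strictMono hAinf, ?_, ?_, ?_, ?_, ?_⟩
  · intro b hb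
    exact ⟨Nat.count (· ∈ A) b, Nat.nth_count (p := (· ∈ A)) (hA1 hb)⟩
  · intro i
    have h1 : Nat.nth (· ∈ A) i ∈ A := Nat.nth_mem_of_infinite hAinf i
    rcases Nat.eq_zero_or_pos (Nat.nth (· ∈ A) i) with h2 | h2
    · rw [h2] at h1
      exact absurd h1 hA2
    · exact h2
  · intro D hD
    obtain ⟨c, hc⟩ := hA3' D hD
    exact ⟨c, fun d hd => ⟨Nat.count (· ∈ A) (d + c), Nat.nth_count (p := (· ∈ A)) (hc d hd)⟩⟩
  · intro p hp
    obtain ⟨r, hr⟩ := hA3 p hp
    exact ⟨r, fun i => hr _ (Nat.nth_mem_of_infinite hAinf i)⟩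
  · intro K
    obtain ⟨y, k, hk, hK, ⟨X, hX⟩, h4⟩ := hsc K
    refine ⟨k, hK, X, fun x hx => h4 _ ?_⟩
    refine le_trans ?_ (hX x hx)
    -- the primes among the `x + a i`, `i < k`
    have h5 := translate_card ((Icc 1 y).filter (· ∈ A)) x y (filter_subset _ _)
    have h6 : ((range k).filter (fun i => (x + Nat.nth (· ∈ A) i).Prime)).card ≤
        (((Icc 1 y).filter (· ∈ A)).filter (fun a => (x + a).Prime)).card := by
      apply card_le_card_of_injOn (fun i => Nat.nth (· ∈ A) i)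
      · intro i hi
        simp only [coe_filter, mem_range, Set.mem_ofPred_eq] at hi
        simp only [coe_filter, mem_filter, mem_Icc, Set.mem_ofPred_eq]
        have h7 : Nat.nth (· ∈ A) i < y + 1 := Nat.nth_lt_of_lt_count (hk ▸ hi.1)
        have h8 : Nat.nth (· ∈ A) i ∈ A := Nat.nth_mem_of_infinite hAinf i
        refine ⟨⟨⟨?_, by omega⟩, h8⟩, hi.2⟩
        rcases Nat.eq_zero_or_pos (Nat.nth (· ∈ A) i) with h9 | h9
        · rw [h9] at h8
          exact absurd h8 hA2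
        · exact h9
      · intro i _ j _ hij
        exact (Nat.nth_strictMono hAinf).injective hij
    have h7 : (Nat.primeCounting x : ℝ) +
        (((range k).filter (fun i => (x + Nat.nth (· ∈ A) i).Prime)).card : ℝ) ≤
        Nat.primeCounting (x + y) := by
      exact_mod_cast (Nat.add_le_add_left h6 _).trans h5
    linarith

end RHI88
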